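import Pool.Agent.Work.MP_b103ef_al_h44.Shift

/-! MP_b103ef_al, section 4 of note 2759: additivity of E(V,P,Q) and naturality of Psi_e, Psi_f. -/

set_option autoImplicit false

namespace Pool.Agent.PV44

noncomputable section

/-! ## functoriality -/

section Map

variable {k V V' P P' Q Q' : Type*} [Field k] [AddCommGroup V] [Module k V] [AddCommGroup P]
  [Module k P] [AddCommGroup Q] [Module k Q] [AddCommGroup V'] [Module k V'] [AddCommGroup P']
  [Module k P'] [AddCommGroup Q'] [Module k Q']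

/-- the map on sequences -/
def mapFs (f : V →ₗ[k] V') : (ℕ →₀ V) →ₗ[k] (ℕ →₀ V') := Finsupp.mapRange.linearMap f

@[simp] theorem mapFs_apply (f : V →ₗ[k] V') (x : ℕ →₀ V) (n : ℕ) : mapFs f x n = f (x n) := by
  simp [mapFs]

theorem mapFs_sh (f : V →ₗ[k] V') (x : ℕ →₀ V) : mapFs f (sh k V x) = sh k V' (mapFs f x) := by
  ext n
  cases n <;> simp

theorem mapFs_shs (f : V →ₗ[k] V') (x : ℕ →₀ V) : mapFs f (shs k V x) = shs k V' (mapFs f x) := by
  ext n
  simp

theorem mapFs_e0 (f : V →ₗ[k] V') (v : V) : mapFs f (e0 k V v) = e0 k V' (f v) := by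
  ext n
  cases n <;> simp

def mapXX (f : V →ₗ[k] V') (p : P →ₗ[k] P') : XX V P →ₗ[k] XX V' P' :=
  (mapFs f).prodMap ((mapFs f).prodMap p)

def mapYY (f : V →ₗ[k] V') (q : Q →ₗ[k] Q') : YY V Q →ₗ[k] YY V' Q' :=
  (mapFs f).prodMap q

def mapEE (f : V →ₗ[k] V') (p : P →ₗ[k] P') (q : Q →ₗ[k] Q') : EE V P Q →ₗ[k] EE V' P' Q' :=
  (mapXX f p).prodMap (f.prodMap (mapYY f q))

/-- the map in the coordinates of Psi_f -/
def mapFF (f : V →ₗ[k] V') (p : P →ₗ[k] P') (q : Q →ₗ[k] Q') :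
    ((XX V P × V) × YY V Q) →ₗ[k] ((XX V' P' × V') × YY V' Q') :=
  ((mapXX f p).prodMap f).prodMap (mapYY f q)

theorem mapEE_PsiE (f : V →ₗ[k] V') (p : P →ₗ[k] P') (q : Q →ₗ[k] Q') (u : EE V P Q) :
    mapEE f p q (PsiE k V P Q u) = PsiE k V' P' Q' (mapEE f p q u) := by
  rcases u with ⟨⟨T, R, w⟩, ⟨z, ⟨y, r⟩⟩⟩
  simp [mapEE, mapXX, mapYY, PsiE, map_add, map_sub, mapFs_sh, mapFs_shs, mapFs_e0]

theorem mapEE_PsiF (f : V →ₗ[k] V') (p : P →ₗ[k] P') (q : Q →ₗ[k] Q')
    (u : (XX V P × V) × YY V Q) :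
    mapEE f p q (PsiF k V P Q u) = PsiF k V' P' Q' (mapFF f p q u) := by
  rcases u with ⟨⟨⟨T, R, w⟩, z⟩, ⟨y, r⟩⟩
  simp [mapEE, mapFF, mapXX, mapYY, PsiF, map_add, map_sub, mapFs_sh, mapFs_shs, mapFs_e0]

end Map

/-! ## direct sums -/

section Sum

variable {k ι : Type*} [Field k] [DecidableEq ι] {V P Q A B : ι → Type*}
  [∀ i, AddCommGroup (V i)] [∀ i, Module k (V i)] [∀ i, AddCommGroup (P i)]
  [∀ i, Module k (P i)] [∀ i, AddCommGroup (Q i)] [∀ i, Module k (Q i)]
  [∀ i, AddCommGroup (A i)] [∀ i, Module k (A i)] [∀ i, AddCommGroup (B i)]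
  [∀ i, Module k (B i)]

def swapTo (k : Type*) [Field k] (V : ι → Type*) [∀ i, AddCommGroup (V i)]
    [∀ i, Module k (V i)] : (ℕ →₀ (Π₀ i, V i)) →ₗ[k] Π₀ i, (ℕ →₀ V i) :=
  Finsupp.lsum k (fun n => DFinsupp.mapRange.linearMap (fun i => Finsupp.lsingle n))

def swapInv (k : Type*) [Field k] (V : ι → Type*) [∀ i, AddCommGroup (V i)]
    [∀ i, Module k (V i)] : (Π₀ i, (ℕ →₀ V i)) →ₗ[k] (ℕ →₀ (Π₀ i, V i)) :=
  DFinsupp.lsum k (fun i => Finsupp.mapRange.linearMap (DFinsupp.lsingle i))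

@[simp] theorem swapTo_apply (f : ℕ →₀ (Π₀ i, V i)) (i : ι) (n : ℕ) :
    swapTo k V f i n = f n i := by
  induction f using Finsupp.induction_linear with
  | zero => simp
  | add f g hf hg => simp [map_add, hf, hg]
  | single m v =>
    simp only [swapTo, Finsupp.lsum_single, DFinsupp.mapRange.linearMap_apply,
      DFinsupp.mapRange_apply, Finsupp.lsingle_apply]
    by_cases h : m = n
    · subst h; simp
    · simp [Finsupp.single_apply, h]

@[simp] theorem swapInv_apply (g : Π₀ i, (ℕ →₀ V i)) (i : ι) (n : ℕ) :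
    swapInv k V g n i = g i n := by
  induction g using DFinsupp.induction with
  | h0 => simp
  | ha j v f _ _ hf =>
    rw [map_add, Finsupp.add_apply, DFinsupp.add_apply, DFinsupp.add_apply, Finsupp.add_apply, hf]
    congr 1
    simp only [swapInv, DFinsupp.lsum_single, Finsupp.mapRange.linearMap_apply,
      Finsupp.mapRange_apply, DFinsupp.lsingle_apply]
    by_cases h : i = j
    · subst h; simp
    · rw [DFinsupp.single_eq_of_ne h, DFinsupp.single_eq_of_ne h]; simp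

/-- sequences in a direct sum = direct sum of the sequences -/
def swapE (k : Type*) [Field k] (V : ι → Type*) [∀ i, AddCommGroup (V i)]
    [∀ i, Module k (V i)] : (ℕ →₀ (Π₀ i, V i)) ≃ₗ[k] Π₀ i, (ℕ →₀ V i) :=
  LinearEquiv.ofLinearMap (swapTo k V) (swapInv k V)
    (by
      apply LinearMap.ext
      intro g
      apply DFinsupp.ext
      intro i
      ext n
      simp)
    (by
      apply LinearMap.ext
      intro f
      ext n i
      simp)

@[simp] theorem swapE_apply (f : ℕ →₀ (Π₀ i, V i)) (i : ι) (n : ℕ) :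
    swapE k V f i n = f n i := swapTo_apply f i n

/-- product of direct sums -/
def prodE (k : Type*) [Field k] (A B : ι → Type*) [∀ i, AddCommGroup (A i)]
    [∀ i, Module k (A i)] [∀ i, AddCommGroup (B i)] [∀ i, Module k (B i)] :
    ((Π₀ i, A i) × (Π₀ i, B i)) ≃ₗ[k] Π₀ i, (A i × B i) :=
  LinearEquiv.ofLinearMap
    ((DFinsupp.mapRange.linearMap (fun i => LinearMap.inl k (A i) (B i))).coprod
      (DFinsupp.mapRange.linearMap (fun i => LinearMap.inr k (A i) (B i))))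
    ((DFinsupp.mapRange.linearMap (fun i => LinearMap.fst k (A i) (B i))).prod
      (DFinsupp.mapRange.linearMap (fun i => LinearMap.snd k (A i) (B i))))
    (by
      apply LinearMap.ext
      intro g
      apply DFinsupp.ext
      intro i
      simp)
    (by
      apply LinearMap.ext
      rintro ⟨a, b⟩
      ext i <;> simp)

@[simp] theorem prodE_apply (x : (Π₀ i, A i) × (Π₀ i, B i)) (i : ι) :
    prodE k A B x i = (x.1 i, x.2 i) := by
  simp [prodE]

/-- E(V,P,Q) is additive -/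
def addEE (k : Type*) [Field k] (V P Q : ι → Type*) [∀ i, AddCommGroup (V i)]
    [∀ i, Module k (V i)] [∀ i, AddCommGroup (P i)] [∀ i, Module k (P i)]
    [∀ i, AddCommGroup (Q i)] [∀ i, Module k (Q i)] :
    EE (Π₀ i, V i) (Π₀ i, P i) (Π₀ i, Q i) ≃ₗ[k] Π₀ i, EE (V i) (P i) (Q i) :=
  (LinearEquiv.prodCongr
      ((LinearEquiv.prodCongr (swapE k V)
        ((LinearEquiv.prodCongr (swapE k V) (LinearEquiv.refl k _)).trans
          (prodE k (fun i => ℕ →₀ V i) P))).trans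
        (prodE k (fun i => ℕ →₀ V i) (fun i => (ℕ →₀ V i) × P i)))
      ((LinearEquiv.prodCongr (LinearEquiv.refl k _)
        ((LinearEquiv.prodCongr (swapE k V) (LinearEquiv.refl k _)).trans
          (prodE k (fun i => ℕ →₀ V i) Q))).trans
        (prodE k V (fun i => (ℕ →₀ V i) × Q i)))).trans
    (prodE k (fun i => XX (V i) (P i)) (fun i => V i × YY (V i) (Q i)))

/-- the component of addEE is the functorial map of the coordinate projections -/
theorem addEE_apply (x : EE (Π₀ i, V i) (Π₀ i, P i) (Π₀ i, Q i)) (i : ι) :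
    addEE k V P Q x i = mapEE (DFinsupp.lapply (R := k) (M := V) i)
      (DFinsupp.lapply (R := k) (M := P) i) (DFinsupp.lapply (R := k) (M := Q) i) x := by
  rcases x with ⟨⟨T, R, w⟩, ⟨z, ⟨y, r⟩⟩⟩
  simp only [addEE, LinearEquiv.trans_apply, LinearEquiv.prodCongr_apply, prodE_apply, mapEE,
    mapXX, mapYY, LinearMap.prodMap_apply, LinearEquiv.refl_apply, DFinsupp.lapply_apply]
  ext <;> simp

theorem addEE_PsiE (u : EE (Π₀ i, V i) (Π₀ i, P i) (Π₀ i, Q i)) (i : ι) :
    addEE k V P Q (PsiE k _ _ _ u) i = PsiE k (V i) (P i) (Q i) (addEE k V P Q u i) := by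
  rw [addEE_apply, addEE_apply, mapEE_PsiE]

theorem addEE_PsiF (u : (XX (Π₀ i, V i) (Π₀ i, P i) × (Π₀ i, V i)) ×
    YY (Π₀ i, V i) (Π₀ i, Q i)) (i : ι) :
    addEE k V P Q (PsiF k _ _ _ u) i = PsiF k (V i) (P i) (Q i)
      (mapFF (DFinsupp.lapply (R := k) (M := V) i) (DFinsupp.lapply (R := k) (M := P) i)
        (DFinsupp.lapply (R := k) (M := Q) i) u) := by
  rw [addEE_apply, mapEE_PsiF]

end Sum

end

end Pool.Agent.PV44
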