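import Mathlib
import Pool.Agent.Work.MP_b103ef_al_h94.Sec6

/-! MP_b103ef_al, section 4 of note 2759: direct sums of subspaces, boxes, MAP and ISO. -/

set_option autoImplicit false

namespace Pool.Agent.PV44

open Pool.Agent.Work.MP_b103ef_al_h94

/-! ## arbitrary direct sums -/

section Dsum

variable {k ι E : Type*} [Field k] [AddCommGroup E] [Module k E] {X : ι → Type*}
  [∀ i, AddCommGroup (X i)] [∀ i, Module k (X i)]

/-- all vectors with components in `U` -/
def dsum (e : E ≃ₗ[k] Π₀ i, X i) (U : ∀ i, Submodule k (X i)) : Submodule k E where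
  carrier := {v | ∀ i, e v i ∈ U i}
  add_mem' := by
    intro v w hv hw i
    rw [map_add, DFinsupp.add_apply]
    exact (U i).add_mem (hv i) (hw i)
  zero_mem' := by
    intro i
    rw [map_zero]
    exact (U i).zero_mem
  smul_mem' := by
    intro c v hv i
    rw [map_smul, DFinsupp.smul_apply]
    exact (U i).smul_mem c (hv i)

theorem mem_dsum {e : E ≃ₗ[k] Π₀ i, X i} {U : ∀ i, Submodule k (X i)} {v : E} :
    v ∈ dsum e U ↔ ∀ i, e v i ∈ U i := Iff.rfl

theorem dsum_mono (e : E ≃ₗ[k] Π₀ i, X i) {U W : ∀ i, Submodule k (X i)} (h : ∀ i, U i ≤ W i) :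
    dsum e U ≤ dsum e W := fun _ hv i => h i (hv i)

theorem dsum_le_iff (e : E ≃ₗ[k] Π₀ i, X i) {U W : ∀ i, Submodule k (X i)} :
    dsum e U ≤ dsum e W ↔ ∀ i, U i ≤ W i := by
  classical
  refine ⟨?_, dsum_mono e⟩
  intro h i x hx
  have h1 : e.symm (DFinsupp.single i x) ∈ dsum e U := by
    intro j
    rw [LinearEquiv.apply_symm_apply]
    by_cases hj : j = i
    · subst hj
      rw [DFinsupp.single_eq_same]
      exact hx
    · rw [DFinsupp.single_eq_of_ne hj]
      exact (U j).zero_mem
  have h2 := h h1 i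
  rwa [LinearEquiv.apply_symm_apply, DFinsupp.single_eq_same] at h2

theorem dsum_inj (e : E ≃ₗ[k] Π₀ i, X i) {U W : ∀ i, Submodule k (X i)} :
    dsum e U = dsum e W ↔ ∀ i, U i = W i := by
  constructor
  · intro h i
    exact le_antisymm ((dsum_le_iff e).1 h.le i) ((dsum_le_iff e).1 h.ge i)
  · intro h
    rw [show U = W from funext h]

theorem dsum_inf (e : E ≃ₗ[k] Π₀ i, X i) (U W : ∀ i, Submodule k (X i)) :
    dsum e (fun i => U i ⊓ W i) = dsum e U ⊓ dsum e W := by
  ext v
  constructor
  · intro h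
    exact ⟨fun i => (h i).1, fun i => (h i).2⟩
  · intro h i
    exact ⟨h.1 i, h.2 i⟩

theorem dsum_top (e : E ≃ₗ[k] Π₀ i, X i) : dsum e (fun _ => ⊤) = ⊤ := by
  rw [eq_top_iff]
  intro v _ i
  exact Submodule.mem_top

theorem dsum_bot (e : E ≃ₗ[k] Π₀ i, X i) : dsum e (fun _ => ⊥) = ⊥ := by
  rw [eq_bot_iff]
  intro v hv
  rw [Submodule.mem_bot]
  apply e.injective
  rw [map_zero]
  ext i
  exact (Submodule.mem_bot k).1 (hv i)

theorem dsum_sup (e : E ≃ₗ[k] Π₀ i, X i) (U W : ∀ i, Submodule k (X i)) :
    dsum e (fun i => U i ⊔ W i) = dsum e U ⊔ dsum e W := by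
  classical
  apply le_antisymm
  · intro v hv
    have h1 : ∀ i, ∃ u ∈ U i, ∃ w ∈ W i, u + w = e v i := fun i => Submodule.mem_sup.1 (hv i)
    choose u hu w hw huw using h1
    set s := (e v).support with hs
    let a : Π₀ i, X i := DFinsupp.mk s (fun i => u i)
    let b : Π₀ i, X i := DFinsupp.mk s (fun i => w i)
    have hab : a + b = e v := by
      ext i
      rw [DFinsupp.add_apply]
      by_cases hi : i ∈ s
      · simp only [a, b, DFinsupp.mk_apply, hi, dif_pos]
        exact huw i
      · simp only [a, b, DFinsupp.mk_apply, hi, dif_neg, not_false_iff, add_zero]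
        rw [hs, DFinsupp.notMem_support_iff] at hi
        exact hi.symm
    have hva : e.symm a + e.symm b = v := by
      rw [← map_add, hab, LinearEquiv.symm_apply_apply]
    rw [← hva]
    refine Submodule.add_mem_sup ?_ ?_
    · intro i
      rw [LinearEquiv.apply_symm_apply]
      by_cases hi : i ∈ s
      · simp only [a, DFinsupp.mk_apply, hi, dif_pos]
        exact hu i
      · simp only [a, DFinsupp.mk_apply, hi, dif_neg, not_false_iff]
        exact (U i).zero_mem
    · intro i
      rw [LinearEquiv.apply_symm_apply]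
      by_cases hi : i ∈ s
      · simp only [b, DFinsupp.mk_apply, hi, dif_pos]
        exact hw i
      · simp only [b, DFinsupp.mk_apply, hi, dif_neg, not_false_iff]
        exact (W i).zero_mem
  · exact sup_le (dsum_mono e fun i => le_sup_left) (dsum_mono e fun i => le_sup_right)

/-- the bounded lattice embedding -/
def dsumHom (e : E ≃ₗ[k] Π₀ i, X i) :
    BoundedLatticeHom (∀ i, Submodule k (X i)) (Submodule k E) where
  toFun := dsum e
  map_sup' := dsum_sup e
  map_inf' := dsum_inf e
  map_top' := dsum_top e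
  map_bot' := dsum_bot e

theorem dsumHom_apply (e : E ≃ₗ[k] Π₀ i, X i) (U : ∀ i, Submodule k (X i)) :
    dsumHom e U = dsum e U := rfl

theorem dsum_finset_inf (e : E ≃ₗ[k] Π₀ i, X i) {α : Type*} (s : Finset α)
    (U : α → ∀ i, Submodule k (X i)) :
    dsum e (fun i => s.inf (fun a => U a i)) = s.inf (fun a => dsum e (U a)) := by
  classical
  induction s using Finset.induction_on with
  | empty => simp only [Finset.inf_empty]; exact dsum_top e
  | insert a s ha ih =>
    simp only [Finset.inf_insert]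
    rw [dsum_inf, ih]

theorem dsum_finset_sup (e : E ≃ₗ[k] Π₀ i, X i) {α : Type*} (s : Finset α)
    (U : α → ∀ i, Submodule k (X i)) :
    dsum e (fun i => s.sup (fun a => U a i)) = s.sup (fun a => dsum e (U a)) := by
  classical
  induction s using Finset.induction_on with
  | empty => simp only [Finset.sup_empty]; exact dsum_bot e
  | insert a s ha ih =>
    simp only [Finset.sup_insert]
    rw [dsum_sup, ih]

end Dsum

/-! ## product decompositions -/

section Psum

variable {k E A B : Type*} [Field k] [AddCommGroup E] [Module k E] [AddCommGroup A] [Module k A]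
  [AddCommGroup B] [Module k B]

/-- image of the product -/
def psum (e : (A × B) ≃ₗ[k] E) (U : Submodule k A) (W : Submodule k B) : Submodule k E :=
  (U.prod W).map (e : (A × B) →ₗ[k] E)

theorem mem_psum {e : (A × B) ≃ₗ[k] E} {U : Submodule k A} {W : Submodule k B} {v : E} :
    v ∈ psum e U W ↔ (e.symm v).1 ∈ U ∧ (e.symm v).2 ∈ W := by
  constructor
  · rintro ⟨x, hx, rfl⟩
    have : e.symm ((e : (A × B) →ₗ[k] E) x) = x := e.symm_apply_apply x
    rw [this]
    exact ⟨hx.1, hx.2⟩
  · intro h
    exact ⟨e.symm v, ⟨h.1, h.2⟩, e.apply_symm_apply v⟩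

theorem psum_mono (e : (A × B) ≃ₗ[k] E) {U U' : Submodule k A} {W W' : Submodule k B}
    (h : U ≤ U') (h' : W ≤ W') : psum e U W ≤ psum e U' W' :=
  Submodule.map_mono (Submodule.prod_mono h h')

theorem psum_le_iff (e : (A × B) ≃ₗ[k] E) {U U' : Submodule k A} {W W' : Submodule k B} :
    psum e U W ≤ psum e U' W' ↔ U ≤ U' ∧ W ≤ W' := by
  constructor
  · intro h
    constructor
    · intro a ha
      have h1 : e (a, 0) ∈ psum e U W := ⟨(a, 0), ⟨ha, W.zero_mem⟩, rfl⟩
      have h2 := mem_psum.1 (h h1)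
      rw [LinearEquiv.symm_apply_apply] at h2
      exact h2.1
    · intro b hb
      have h1 : e (0, b) ∈ psum e U W := ⟨(0, b), ⟨U.zero_mem, hb⟩, rfl⟩
      have h2 := mem_psum.1 (h h1)
      rw [LinearEquiv.symm_apply_apply] at h2
      exact h2.2
  · intro h
    exact psum_mono e h.1 h.2

theorem psum_inj (e : (A × B) ≃ₗ[k] E) {U U' : Submodule k A} {W W' : Submodule k B} :
    psum e U W = psum e U' W' ↔ U = U' ∧ W = W' := by
  constructor
  · intro h
    have h1 := (psum_le_iff e).1 h.le
    have h2 := (psum_le_iff e).1 h.ge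
    exact ⟨le_antisymm h1.1 h2.1, le_antisymm h1.2 h2.2⟩
  · rintro ⟨rfl, rfl⟩
    rfl

theorem psum_inf (e : (A × B) ≃ₗ[k] E) (U U' : Submodule k A) (W W' : Submodule k B) :
    psum e (U ⊓ U') (W ⊓ W') = psum e U W ⊓ psum e U' W' := by
  ext v
  simp only [mem_psum, Submodule.mem_inf]
  tauto

theorem psum_sup (e : (A × B) ≃ₗ[k] E) (U U' : Submodule k A) (W W' : Submodule k B) :
    psum e (U ⊔ U') (W ⊔ W') = psum e U W ⊔ psum e U' W' := by
  unfold psum
  rw [← Submodule.map_sup, Submodule.prod_sup_prod]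

theorem psum_top (e : (A × B) ≃ₗ[k] E) : psum e ⊤ ⊤ = ⊤ := by
  rw [eq_top_iff]
  intro v _
  exact mem_psum.2 ⟨Submodule.mem_top, Submodule.mem_top⟩

theorem psum_bot (e : (A × B) ≃ₗ[k] E) : psum e ⊥ ⊥ = ⊥ := by
  unfold psum
  rw [Submodule.prod_bot, Submodule.map_bot]

theorem psum_finset_inf (e : (A × B) ≃ₗ[k] E) {α : Type*} (s : Finset α)
    (U : α → Submodule k A) (W : α → Submodule k B) :
    psum e (s.inf U) (s.inf W) = s.inf (fun a => psum e (U a) (W a)) := by
  classical
  induction s using Finset.induction_on with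
  | empty => simp only [Finset.inf_empty]; exact psum_top e
  | insert a s ha ih =>
    simp only [Finset.inf_insert]
    rw [psum_inf, ih]

theorem psum_finset_sup (e : (A × B) ≃ₗ[k] E) {α : Type*} (s : Finset α)
    (U : α → Submodule k A) (W : α → Submodule k B) :
    psum e (s.sup U) (s.sup W) = s.sup (fun a => psum e (U a) (W a)) := by
  classical
  induction s using Finset.induction_on with
  | empty => simp only [Finset.sup_empty]; exact psum_bot e
  | insert a s ha ih =>
    simp only [Finset.sup_insert]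
    rw [psum_sup, ih]

end Psum

/-! ## boxes -/

section Box

variable {k E J : Type*} [Field k] [AddCommGroup E] [Module k E]

/-- `v j ∈ C j` for `j ∈ F`, and `v j = 0` elsewhere -/
def box (F : Finset J) (C : J → Submodule k E) : Submodule k (J →₀ E) where
  carrier := {v | (∀ j ∈ F, v j ∈ C j) ∧ ∀ j, j ∉ F → v j = 0}
  add_mem' := by
    intro v w hv hw
    refine ⟨fun j hj => ?_, fun j hj => ?_⟩
    · rw [Finsupp.add_apply]
      exact (C j).add_mem (hv.1 j hj) (hw.1 j hj)
    · rw [Finsupp.add_apply, hv.2 j hj, hw.2 j hj, add_zero]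
  zero_mem' := ⟨fun j _ => (C j).zero_mem, fun _ _ => rfl⟩
  smul_mem' := by
    intro c v hv
    refine ⟨fun j hj => ?_, fun j hj => ?_⟩
    · rw [Finsupp.smul_apply]
      exact (C j).smul_mem c (hv.1 j hj)
    · rw [Finsupp.smul_apply, hv.2 j hj, smul_zero]

theorem mem_box {F : Finset J} {C : J → Submodule k E} {v : J →₀ E} :
    v ∈ box F C ↔ (∀ j ∈ F, v j ∈ C j) ∧ ∀ j, j ∉ F → v j = 0 := Iff.rfl

theorem box_mono {F F' : Finset J} {C C' : J → Submodule k E} (hF : F ⊆ F')
    (hC : ∀ j ∈ F, C j ≤ C' j) : box F C ≤ box F' C' := by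
  intro v hv
  refine ⟨fun j _ => ?_, fun j hj => hv.2 j (fun h => hj (hF h))⟩
  by_cases h : j ∈ F
  · exact hC j h (hv.1 j h)
  · rw [hv.2 j h]
    exact (C' j).zero_mem

theorem single_mem_box {F : Finset J} {C : J → Submodule k E} {j : J} (hj : j ∈ F) {x : E}
    (hx : x ∈ C j) : Finsupp.single j x ∈ box F C := by
  classical
  refine ⟨fun l _ => ?_, fun l hl => ?_⟩
  · by_cases h : j = l
    · subst h
      rw [Finsupp.single_eq_same]
      exact hx
    · rw [Finsupp.single_apply, if_neg h]
      exact (C l).zero_mem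
  · rw [Finsupp.single_apply, if_neg]
    rintro rfl
    exact hl hj

theorem box_le_iff {F : Finset J} {C C' : J → Submodule k E} :
    box F C ≤ box F C' ↔ ∀ j ∈ F, C j ≤ C' j := by
  constructor
  · intro h j hj x hx
    have h1 := (h (single_mem_box hj hx)).1 j hj
    rwa [Finsupp.single_eq_same] at h1
  · exact box_mono (Finset.Subset.refl F)

theorem box_inf (F : Finset J) (C C' : J → Submodule k E) :
    box F (fun j => C j ⊓ C' j) = box F C ⊓ box F C' := by
  ext v
  constructor
  · intro h
    exact ⟨⟨fun j hj => (h.1 j hj).1, h.2⟩, ⟨fun j hj => (h.1 j hj).2, h.2⟩⟩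
  · intro h
    exact ⟨fun j hj => ⟨h.1.1 j hj, h.2.1 j hj⟩, h.1.2⟩

theorem box_sup (F : Finset J) (C C' : J → Submodule k E) :
    box F (fun j => C j ⊔ C' j) = box F C ⊔ box F C' := by
  classical
  apply le_antisymm
  · intro v hv
    have h1 : ∀ j ∈ F, ∃ u ∈ C j, ∃ w ∈ C' j, u + w = v j :=
      fun j hj => Submodule.mem_sup.1 (hv.1 j hj)
    choose u hu w hw huw using h1
    have h2 : (∑ j ∈ F.attach, Finsupp.single (j : J) (u j j.2)) +
        (∑ j ∈ F.attach, Finsupp.single (j : J) (w j j.2)) = v := by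
      rw [← Finset.sum_add_distrib]
      have h3 : ∀ j ∈ F.attach, Finsupp.single (j : J) (u j j.2) + Finsupp.single (j : J) (w j j.2)
          = Finsupp.single (j : J) (v j) := by
        intro j _
        rw [← Finsupp.single_add, huw]
      rw [Finset.sum_congr rfl h3, Finset.sum_attach F (fun j => Finsupp.single j (v j))]
      ext j
      rw [Finsupp.finset_sum_apply]
      simp only [Finsupp.single_apply]
      rw [Finset.sum_ite_eq']
      split_ifs with h
      · rfl
      · exact (hv.2 j h).symm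
    rw [← h2]
    refine Submodule.add_mem_sup ?_ ?_
    · exact Submodule.sum_mem _ fun j _ => single_mem_box j.2 (hu j j.2)
    · exact Submodule.sum_mem _ fun j _ => single_mem_box j.2 (hw j j.2)
  · exact sup_le (box_mono (Finset.Subset.refl F) fun j _ => le_sup_left)
      (box_mono (Finset.Subset.refl F) fun j _ => le_sup_right)

theorem box_bot (F : Finset J) : box F (fun _ => (⊥ : Submodule k E)) = ⊥ := by
  rw [eq_bot_iff]
  intro v hv
  rw [Submodule.mem_bot]
  ext j
  by_cases h : j ∈ F
  · exact (Submodule.mem_bot k).1 (hv.1 j h)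
  · exact hv.2 j h

theorem box_congr {F : Finset J} {C C' : J → Submodule k E} (h : ∀ j ∈ F, C j = C' j) :
    box F C = box F C' :=
  le_antisymm (box_mono (Finset.Subset.refl F) fun j hj => (h j hj).le)
    (box_mono (Finset.Subset.refl F) fun j hj => (h j hj).ge)

/-- enlarging the index set by components already there -/
theorem box_eq_sup_of_subset {F F' : Finset J} {C B : J → Submodule k E} (hF : F ⊆ F')
    (hB : ∀ j ∈ F, B j ≤ C j) [DecidableEq J] :
    box F' (fun j => if j ∈ F then C j else B j) = box F C ⊔ box F' B := by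
  apply le_antisymm
  · intro v hv
    have h2 : (∑ j ∈ F, Finsupp.single j (v j)) + (∑ j ∈ F' \ F, Finsupp.single j (v j)) = v := by
      rw [add_comm, Finset.sum_sdiff hF]
      ext j
      rw [Finsupp.finset_sum_apply]
      simp only [Finsupp.single_apply]
      rw [Finset.sum_ite_eq']
      split_ifs with h
      · rfl
      · exact (hv.2 j h).symm
    rw [← h2]
    refine Submodule.add_mem_sup ?_ ?_
    · refine Submodule.sum_mem _ fun j hj => single_mem_box hj ?_
      have := hv.1 j (hF hj)
      simpa only [if_pos hj] using this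
    · refine Submodule.sum_mem _ fun j hj => single_mem_box (Finset.mem_sdiff.1 hj).1 ?_
      have := hv.1 j (Finset.mem_sdiff.1 hj).1
      simpa only [if_neg (Finset.mem_sdiff.1 hj).2] using this
  · refine sup_le ?_ ?_
    · refine box_mono hF fun j hj => ?_
      rw [if_pos hj]
    · refine box_mono (Finset.Subset.refl _) fun j hj => ?_
      split_ifs with h
      · exact hB j h
      · exact le_rfl

end Box

/-! ## decompositions of `J →₀ E` -/

section Lift

variable {k ι E J : Type*} [Field k] [AddCommGroup E] [Module k E] {X : ι → Type*}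
  [∀ i, AddCommGroup (X i)] [∀ i, Module k (X i)]

theorem liftJ_exists (e : E ≃ₗ[k] Π₀ i, X i) :
    ∃ e' : (J →₀ E) ≃ₗ[k] Π₀ i, (J →₀ X i), ∀ v i j, e' v i j = e (v j) i := by
  classical
  let f : (J →₀ E) →ₗ[k] Π₀ i, (J →₀ X i) :=
    (Finsupp.lsum k (fun j : J => (DFinsupp.mapRange.linearMap
      (fun _ => Finsupp.lsingle j)).comp (e : E →ₗ[k] Π₀ i, X i)))
  let g : (Π₀ i, (J →₀ X i)) →ₗ[k] (J →₀ E) :=
    DFinsupp.lsum k (fun i => Finsupp.mapRange.linearMap
      ((e.symm : (Π₀ i, X i) →ₗ[k] E).comp (DFinsupp.lsingle i)))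
  have hf : ∀ v i j, f v i j = e (v j) i := by
    intro v i j
    induction v using Finsupp.induction_linear with
    | zero => simp
    | add v w hv hw => rw [map_add, DFinsupp.add_apply, Finsupp.add_apply, hv, hw,
        Finsupp.add_apply, map_add, DFinsupp.add_apply]
    | single m x =>
      have h1 : f (Finsupp.single m x) i = Finsupp.single m (e x i) := by
        simp only [f, Finsupp.lsum_single, LinearMap.comp_apply, LinearEquiv.coe_coe,
          DFinsupp.mapRange.linearMap_apply, DFinsupp.mapRange_apply, Finsupp.lsingle_apply]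
      rw [h1]
      by_cases h : m = j
      · subst h
        rw [Finsupp.single_eq_same, Finsupp.single_eq_same]
      · rw [Finsupp.single_apply, Finsupp.single_apply, if_neg h, if_neg h, map_zero]
        rfl
  have hg : ∀ u i j, e (g u j) i = u i j := by
    intro u i j
    induction u using DFinsupp.induction with
    | h0 => simp
    | ha l v u _ _ hu =>
      rw [map_add, Finsupp.add_apply, map_add, DFinsupp.add_apply, DFinsupp.add_apply,
        Finsupp.add_apply, hu]
      congr 1
      simp only [g, DFinsupp.lsum_single, Finsupp.mapRange.linearMap_apply,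
        Finsupp.mapRange_apply, LinearMap.comp_apply, LinearEquiv.coe_coe, DFinsupp.lsingle_apply,
        LinearEquiv.apply_symm_apply]
      by_cases h : i = l
      · subst h
        rw [DFinsupp.single_eq_same, DFinsupp.single_eq_same]
      · rw [DFinsupp.single_eq_of_ne h, DFinsupp.single_eq_of_ne h]
        rfl
  refine ⟨LinearEquiv.ofLinearMap f g ?_ ?_, fun v i j => ?_⟩
  · apply LinearMap.ext
    intro u
    ext i j
    rw [LinearMap.comp_apply, LinearMap.id_apply, hf, hg]
  · apply LinearMap.ext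
    intro v
    ext j
    rw [LinearMap.comp_apply, LinearMap.id_apply]
    apply e.injective
    ext i
    rw [hg, hf]
  · exact hf v i j

/-- the decomposition of `J →₀ E` induced by a decomposition of `E` -/
noncomputable def liftJ (J : Type*) (e : E ≃ₗ[k] Π₀ i, X i) :
    (J →₀ E) ≃ₗ[k] Π₀ i, (J →₀ X i) := (liftJ_exists (J := J) e).choose

theorem liftJ_apply (e : E ≃ₗ[k] Π₀ i, X i) (v : J →₀ E) (i : ι) (j : J) :
    liftJ J e v i j = e (v j) i := (liftJ_exists (J := J) e).choose_spec v i j

theorem dsum_box (e : E ≃ₗ[k] Π₀ i, X i) (F : Finset J) (C : ∀ i, J → Submodule k (X i)) :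
    dsum (liftJ J e) (fun i => box F (C i)) = box F (fun j => dsum e (fun i => C i j)) := by
  ext v
  constructor
  · intro h
    refine ⟨fun j hj i => ?_, fun j hj => ?_⟩
    · rw [← liftJ_apply]
      exact (h i).1 j hj
    · apply e.injective
      rw [map_zero]
      ext i
      rw [← liftJ_apply]
      exact (h i).2 j hj
  · intro h i
    refine ⟨fun j hj => ?_, fun j hj => ?_⟩
    · rw [liftJ_apply]
      exact h.1 j hj i
    · rw [liftJ_apply, h.2 j hj, map_zero]
      rfl

variable {A B : Type*} [AddCommGroup A] [Module k A] [AddCommGroup B] [Module k B]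

theorem liftP_exists (e : (A × B) ≃ₗ[k] E) :
    ∃ e' : ((J →₀ A) × (J →₀ B)) ≃ₗ[k] (J →₀ E), ∀ v j, e' v j = e (v.1 j, v.2 j) := by
  classical
  let f : ((J →₀ A) × (J →₀ B)) →ₗ[k] (J →₀ E) :=
    (Finsupp.mapRange.linearMap ((e : (A × B) →ₗ[k] E).comp (LinearMap.inl k A B))).coprod
      (Finsupp.mapRange.linearMap ((e : (A × B) →ₗ[k] E).comp (LinearMap.inr k A B)))
  let g : (J →₀ E) →ₗ[k] ((J →₀ A) × (J →₀ B)) :=
    (Finsupp.mapRange.linearMap ((LinearMap.fst k A B).comp (e.symm : E →ₗ[k] (A × B)))).prod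
      (Finsupp.mapRange.linearMap ((LinearMap.snd k A B).comp (e.symm : E →ₗ[k] (A × B))))
  have hf : ∀ v j, f v j = e (v.1 j, v.2 j) := by
    rintro ⟨a, b⟩ j
    simp only [f, LinearMap.coprod_apply, Finsupp.mapRange.linearMap_apply, Finsupp.add_apply,
      Finsupp.mapRange_apply, LinearMap.comp_apply, LinearMap.inl_apply, LinearMap.inr_apply,
      LinearEquiv.coe_coe]
    rw [← map_add, Prod.mk_add_mk, add_zero, zero_add]
  have hg : ∀ w j, (g w).1 j = (e.symm (w j)).1 ∧ (g w).2 j = (e.symm (w j)).2 := by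
    intro w j
    exact ⟨rfl, rfl⟩
  refine ⟨LinearEquiv.ofLinearMap f g ?_ ?_, fun v j => ?_⟩
  · apply LinearMap.ext
    intro u
    ext j
    rw [LinearMap.comp_apply, LinearMap.id_apply, hf, (hg u j).1, (hg u j).2, Prod.mk.eta,
      LinearEquiv.apply_symm_apply]
  · apply LinearMap.ext
    rintro ⟨a, b⟩
    rw [LinearMap.comp_apply, LinearMap.id_apply]
    apply Prod.ext
    · ext j
      rw [(hg _ j).1, hf, LinearEquiv.symm_apply_apply]
    · ext j
      rw [(hg _ j).2, hf, LinearEquiv.symm_apply_apply]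
  · exact hf v j

/-- the product decomposition of `J →₀ E` -/
noncomputable def liftP (J : Type*) (e : (A × B) ≃ₗ[k] E) :
    ((J →₀ A) × (J →₀ B)) ≃ₗ[k] (J →₀ E) := (liftP_exists (J := J) e).choose

theorem liftP_apply (e : (A × B) ≃ₗ[k] E) (v : (J →₀ A) × (J →₀ B)) (j : J) :
    liftP J e v j = e (v.1 j, v.2 j) := (liftP_exists (J := J) e).choose_spec v j

theorem liftP_symm_apply (e : (A × B) ≃ₗ[k] E) (w : J →₀ E) (j : J) :
    (((liftP J e).symm w).1 j, ((liftP J e).symm w).2 j) = e.symm (w j) := by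
  apply e.injective
  rw [LinearEquiv.apply_symm_apply, ← liftP_apply, LinearEquiv.apply_symm_apply]

theorem psum_box (e : (A × B) ≃ₗ[k] E) (F : Finset J) (C : J → Submodule k A)
    (D : J → Submodule k B) :
    psum (liftP J e) (box F C) (box F D) = box F (fun j => psum e (C j) (D j)) := by
  ext w
  rw [mem_psum]
  constructor
  · rintro ⟨h1, h2⟩
    refine ⟨fun j hj => ?_, fun j hj => ?_⟩
    · rw [mem_psum, ← liftP_symm_apply]
      exact ⟨h1.1 j hj, h2.1 j hj⟩
    · apply e.symm.injective
      rw [map_zero, ← liftP_symm_apply, h1.2 j hj, h2.2 j hj]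
      rfl
  · intro h
    refine ⟨⟨fun j hj => ?_, fun j hj => ?_⟩, ⟨fun j hj => ?_, fun j hj => ?_⟩⟩
    · have := (mem_psum.1 (h.1 j hj)).1
      rwa [← liftP_symm_apply] at this
    · have h2 := liftP_symm_apply e w j
      rw [h.2 j hj, map_zero] at h2
      exact congrArg Prod.fst h2
    · have := (mem_psum.1 (h.1 j hj)).2
      rwa [← liftP_symm_apply] at this
    · have h2 := liftP_symm_apply e w j
      rw [h.2 j hj, map_zero] at h2
      exact congrArg Prod.snd h2

end Lift

/-! ## MAP and ISO -/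

section MapIso

variable {k E : Type} [Field k] [AddCommGroup E] [Module k E]

theorem MAP_dsum {ι : Type*} {X : ι → Type} [∀ i, AddCommGroup (X i)] [∀ i, Module k (X i)]
    (e : E ≃ₗ[k] Π₀ i, X i) {t' t b' al G : ∀ i, Submodule k (X i)} :
    MAP (dsum e t') (dsum e t) (dsum e b') (dsum e al) (dsum e G) ↔
      ∀ i, MAP (t' i) (t i) (b' i) (al i) (G i) := by
  unfold MAP
  simp only [← dsum_sup, ← dsum_inf, dsum_inj]
  exact forall_and.symm

theorem ISO_dsum {ι : Type*} {X : ι → Type} [∀ i, AddCommGroup (X i)] [∀ i, Module k (X i)]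
    (e : E ≃ₗ[k] Π₀ i, X i) {t' t b' al G : ∀ i, Submodule k (X i)} :
    ISO (dsum e t') (dsum e t) (dsum e b') (dsum e al) (dsum e G) ↔
      ∀ i, ISO (t' i) (t i) (b' i) (al i) (G i) := by
  unfold ISO
  rw [MAP_dsum, MAP_dsum]
  exact forall_and.symm

theorem MAP_psum {A B : Type} [AddCommGroup A] [Module k A] [AddCommGroup B] [Module k B]
    (e : (A × B) ≃ₗ[k] E) {t' t b' al G : Submodule k A} {s' s c' be D : Submodule k B} :
    MAP (psum e t' s') (psum e t s) (psum e b' c') (psum e al be) (psum e G D) ↔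
      MAP t' t b' al G ∧ MAP s' s c' be D := by
  unfold MAP
  simp only [← psum_sup, ← psum_inf, psum_inj]
  tauto

theorem ISO_psum {A B : Type} [AddCommGroup A] [Module k A] [AddCommGroup B] [Module k B]
    (e : (A × B) ≃ₗ[k] E) {t' t b' al G : Submodule k A} {s' s c' be D : Submodule k B} :
    ISO (psum e t' s') (psum e t s) (psum e b' c') (psum e al be) (psum e G D) ↔
      ISO t' t b' al G ∧ ISO s' s c' be D := by
  unfold ISO
  rw [MAP_psum, MAP_psum]
  tauto

end MapIso

/-! ## invariant subspaces split along a product decomposition -/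

section Inv

variable {k E A B : Type*} [Field k] [AddCommGroup E] [Module k E] [AddCommGroup A] [Module k A]
  [AddCommGroup B] [Module k B]

/-- the idempotent of the first factor -/
def projA (e : (A × B) ≃ₗ[k] E) : E →ₗ[k] E :=
  (e : (A × B) →ₗ[k] E).comp ((LinearMap.inl k A B).comp
    ((LinearMap.fst k A B).comp (e.symm : E →ₗ[k] (A × B))))

theorem projA_apply (e : (A × B) ≃ₗ[k] E) (v : E) : projA e v = e ((e.symm v).1, 0) := rfl

/-- a subspace invariant under the projection is a product -/
theorem exists_psum_of_inv (e : (A × B) ≃ₗ[k] E) (G : Submodule k E)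
    (h : ∀ v ∈ G, projA e v ∈ G) : ∃ U W, G = psum e U W := by
  refine ⟨G.comap ((e : (A × B) →ₗ[k] E).comp (LinearMap.inl k A B)),
    G.comap ((e : (A × B) →ₗ[k] E).comp (LinearMap.inr k A B)), ?_⟩
  ext v
  rw [mem_psum]
  have h2 : v = e ((e.symm v).1, 0) + e (0, (e.symm v).2) := by
    rw [← map_add, Prod.mk_add_mk, add_zero, zero_add, Prod.mk.eta,
      LinearEquiv.apply_symm_apply]
  constructor
  · intro hv
    have h1 := h v hv
    rw [projA_apply] at h1
    refine ⟨h1, ?_⟩
    have h3 : e (0, (e.symm v).2) = v - e ((e.symm v).1, 0) := by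
      rw [eq_sub_iff_add_eq, add_comm]
      exact h2.symm
    change e (0, (e.symm v).2) ∈ G
    rw [h3]
    exact G.sub_mem hv h1
  · rintro ⟨h3, h4⟩
    rw [h2]
    exact G.add_mem h3 h4

theorem psum_inv (e : (A × B) ≃ₗ[k] E) (U : Submodule k A) (W : Submodule k B) :
    ∀ v ∈ psum e U W, projA e v ∈ psum e U W := by
  intro v hv
  rw [mem_psum] at hv
  rw [projA_apply, mem_psum, LinearEquiv.symm_apply_apply]
  exact ⟨hv.1, W.zero_mem⟩

end Inv

end Pool.Agent.PV44
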