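import Mathlib

/-! MP_b103ef_al, section 5 of note 2759: the explicit gluing module and its
base level (all decompositions of the symbols of type a, b, c). -/

set_option autoImplicit false

namespace Pool.Agent.PV44

noncomputable section

variable {k V P Q : Type*} [Field k] [AddCommGroup V] [Module k V] [AddCommGroup P] [Module k P]
  [AddCommGroup Q] [Module k Q]

/-- finitely supported sequences -/
abbrev Fs (V : Type*) [AddCommGroup V] : Type _ := ℕ →₀ V

/-- right shift -/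
def sh (k : Type*) (V : Type*) [Field k] [AddCommGroup V] [Module k V] :
    (ℕ →₀ V) →ₗ[k] (ℕ →₀ V) := Finsupp.lmapDomain V k Nat.succ

/-- left shift -/
def shs (k : Type*) (V : Type*) [Field k] [AddCommGroup V] [Module k V] :
    (ℕ →₀ V) →ₗ[k] (ℕ →₀ V) := Finsupp.lcomapDomain Nat.succ Nat.succ_injective

/-- the 0-th coordinate vector -/
def e0 (k : Type*) (V : Type*) [Field k] [AddCommGroup V] [Module k V] :
    V →ₗ[k] (ℕ →₀ V) := Finsupp.lsingle 0

@[simp] theorem sh_zero (q : ℕ →₀ V) : sh k V q 0 = 0 := by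
  classical
  show (Finsupp.mapDomain Nat.succ q) 0 = 0
  exact Finsupp.mapDomain_of_notMem_range q 0 (by simp)

@[simp] theorem sh_succ (q : ℕ →₀ V) (n : ℕ) : sh k V q (n + 1) = q n := by
  show (Finsupp.mapDomain Nat.succ q) (n + 1) = q n
  exact Finsupp.mapDomain_apply Nat.succ_injective q n

@[simp] theorem shs_apply (q : ℕ →₀ V) (n : ℕ) : shs k V q n = q (n + 1) := rfl

@[simp] theorem e0_zero (v : V) : e0 k V v 0 = v := by
  show (Finsupp.single 0 v) 0 = v
  simp

@[simp] theorem e0_succ (v : V) (n : ℕ) : e0 k V v (n + 1) = 0 := by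
  show (Finsupp.single 0 v) (n + 1) = 0
  simp

abbrev XX (V P : Type*) [AddCommGroup V] : Type _ := (ℕ →₀ V) × (ℕ →₀ V) × P
abbrev YY (V Q : Type*) [AddCommGroup V] : Type _ := (ℕ →₀ V) × Q
abbrev EE (V P Q : Type*) [AddCommGroup V] : Type _ := XX V P × (V × YY V Q)

/-- Psi_e : X x (V x Y) -> E -/
def PsiE (k V P Q : Type*) [Field k] [AddCommGroup V] [Module k V]
    [AddCommGroup P] [Module k P] [AddCommGroup Q] [Module k Q] :
    (XX V P × (V × YY V Q)) ≃ₗ[k] EE V P Q where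
  toFun u := ((u.1.1 + e0 k V u.2.1 + u.2.2.1, u.1.2.1, u.1.2.2),
    (u.2.1, (sh k V (u.1.2.1 - shs k V u.1.2.1) + u.2.2.1, u.2.2.2)))
  invFun u := ((u.1.1 - e0 k V u.2.1 - (u.2.2.1 - sh k V (u.1.2.1 - shs k V u.1.2.1)),
      u.1.2.1, u.1.2.2),
    (u.2.1, (u.2.2.1 - sh k V (u.1.2.1 - shs k V u.1.2.1), u.2.2.2)))
  map_add' u v := by
    ext <;> simp [map_add, map_sub] <;> abel
  map_smul' c u := by
    ext <;> simp [map_sub, smul_add, smul_sub]
  left_inv u := by
    rcases u with ⟨⟨T, R, w⟩, ⟨z, ⟨y, q⟩⟩⟩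
    simp
    abel
  right_inv u := by
    rcases u with ⟨⟨T, R, w⟩, ⟨z, ⟨y, q⟩⟩⟩
    simp
    abel


/-- Psi_f : (X x V) x Y -> E -/
def PsiF (k V P Q : Type*) [Field k] [AddCommGroup V] [Module k V]
    [AddCommGroup P] [Module k P] [AddCommGroup Q] [Module k Q] :
    ((XX V P × V) × YY V Q) ≃ₗ[k] EE V P Q where
  toFun u := ((u.1.1.1, u.1.1.2.1 + shs k V u.2.1, u.1.1.2.2),
    (u.1.2 + (u.2.1 1 - u.2.1 0),
      (sh k V (shs k V u.1.1.1 - u.1.1.1) + e0 k V ((shs k V u.1.1.1 - u.1.1.1) 0) + u.2.1,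
        u.2.2)))
  invFun u := (((u.1.1, u.1.2.1 - shs k V (u.2.2.1 -
      (sh k V (shs k V u.1.1 - u.1.1) + e0 k V ((shs k V u.1.1 - u.1.1) 0))), u.1.2.2),
      u.2.1 - ((u.2.2.1 -
      (sh k V (shs k V u.1.1 - u.1.1) + e0 k V ((shs k V u.1.1 - u.1.1) 0))) 1 - (u.2.2.1 -
      (sh k V (shs k V u.1.1 - u.1.1) + e0 k V ((shs k V u.1.1 - u.1.1) 0))) 0)),
    (u.2.2.1 -
      (sh k V (shs k V u.1.1 - u.1.1) + e0 k V ((shs k V u.1.1 - u.1.1) 0)), u.2.2.2))
  map_add' u v := by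
    ext <;> simp [map_add, map_sub] <;> abel
  map_smul' c u := by
    ext <;> simp [map_sub, smul_add, smul_sub]
  left_inv u := by
    rcases u with ⟨⟨⟨T, R, w⟩, z⟩, ⟨y, q⟩⟩
    simp
  right_inv u := by
    rcases u with ⟨⟨T, R, w⟩, ⟨z, ⟨y, q⟩⟩⟩
    simp

@[simp] theorem PsiE_symm_apply (T R : ℕ →₀ V) (w : P) (z : V) (y : ℕ →₀ V) (q : Q) :
    (PsiE k V P Q).symm ((T, R, w), (z, (y, q))) =
      ((T - e0 k V z - (y - sh k V (R - shs k V R)), R, w),
        (z, (y - sh k V (R - shs k V R), q))) := rfl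

@[simp] theorem PsiF_symm_apply (T R : ℕ →₀ V) (w : P) (z : V) (y : ℕ →₀ V) (q : Q) :
    (PsiF k V P Q).symm ((T, R, w), (z, (y, q))) =
      (((T, R - shs k V (y - (sh k V (shs k V T - T) + e0 k V ((shs k V T - T) 0))), w),
        z - ((y - (sh k V (shs k V T - T) + e0 k V ((shs k V T - T) 0))) 1 -
          (y - (sh k V (shs k V T - T) + e0 k V ((shs k V T - T) 0))) 0)),
        (y - (sh k V (shs k V T - T) + e0 k V ((shs k V T - T) 0)), q)) := rfl

/-! parts of the symbols of type a -/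

/-- {R = 0, w in Hp} -/
def aX (k V : Type*) {P : Type*} [Field k] [AddCommGroup V] [Module k V] [AddCommGroup P]
    [Module k P] (Hp : Submodule k P) : Submodule k (XX V P) :=
  (⊤ : Submodule k (ℕ →₀ V)).prod ((⊥ : Submodule k (ℕ →₀ V)).prod Hp)

/-- {q in Hq} -/
def aY (k V : Type*) {Q : Type*} [Field k] [AddCommGroup V] [Module k V] [AddCommGroup Q]
    [Module k Q] (Hq : Submodule k Q) : Submodule k (YY V Q) :=
  (⊤ : Submodule k (ℕ →₀ V)).prod Hq

theorem aE2 (H : Submodule k V) (Hp : Submodule k P) (Hq : Submodule k Q) :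
    (aX k V Hp).prod (H.prod (aY k V Hq)) =
      ((aX k V Hp).prod (H.prod (aY k V Hq))).map (PsiE k V P Q).toLinearMap := by
  ext ⟨⟨T, R, w⟩, ⟨z, ⟨y, q⟩⟩⟩
  rw [Submodule.mem_map_equiv]
  simp [aX, aY]

theorem aE1 (Hp : Submodule k P) :
    (aX k V Hp).prod (⊥ : Submodule k (V × YY V Q)) =
      ((aX k V Hp).prod (⊥ : Submodule k (V × YY V Q))).map (PsiE k V P Q).toLinearMap := by
  ext ⟨⟨T, R, w⟩, ⟨z, ⟨y, q⟩⟩⟩
  rw [Submodule.mem_map_equiv]
  simp only [PsiE_symm_apply, aX, Submodule.mem_prod, Submodule.mem_top, Submodule.mem_bot,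
    true_and, Prod.mk_eq_zero]
  constructor
  · rintro ⟨⟨rfl, hw⟩, rfl, rfl, rfl⟩
    simp [hw]
  · rintro ⟨⟨rfl, hw⟩, rfl, h, rfl⟩
    simp at h
    simp [hw, h]

theorem aE3 (H : Submodule k V) (Hq : Submodule k Q) :
    (⊤ : Submodule k (XX V P)).prod (H.prod (aY k V Hq)) =
      ((⊤ : Submodule k (XX V P)).prod (H.prod (aY k V Hq))).map (PsiE k V P Q).toLinearMap := by
  ext ⟨⟨T, R, w⟩, ⟨z, ⟨y, q⟩⟩⟩
  rw [Submodule.mem_map_equiv]
  simp [aY]

/-! type b -/

/-- {T = 0, w in Hp} -/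
def bX (k V : Type*) {P : Type*} [Field k] [AddCommGroup V] [Module k V] [AddCommGroup P]
    [Module k P] (Hp : Submodule k P) : Submodule k (XX V P) :=
  (⊥ : Submodule k (ℕ →₀ V)).prod ((⊤ : Submodule k (ℕ →₀ V)).prod Hp)

/-- {y 1 - y 0 in H, q in Hq} -/
def bY {k V Q : Type*} [Field k] [AddCommGroup V] [Module k V] [AddCommGroup Q]
    [Module k Q] (H : Submodule k V) (Hq : Submodule k Q) : Submodule k (YY V Q) :=
  (H.comap ((Finsupp.lapply 1 : (ℕ →₀ V) →ₗ[k] V) - Finsupp.lapply 0)).prod Hq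

theorem bF2 (H : Submodule k V) (Hp : Submodule k P) (Hq : Submodule k Q) :
    (bX k V Hp).prod (H.prod (bY H Hq)) =
      (((bX k V Hp).prod H).prod (bY H Hq)).map (PsiF k V P Q).toLinearMap := by
  ext ⟨⟨T, R, w⟩, ⟨z, ⟨y, q⟩⟩⟩
  rw [Submodule.mem_map_equiv]
  simp only [PsiF_symm_apply, bX, bY, Submodule.mem_prod, Submodule.mem_top, Submodule.mem_bot,
    true_and, Submodule.mem_comap, LinearMap.sub_apply, Finsupp.lapply_apply]
  constructor
  · rintro ⟨⟨rfl, hw⟩, hz, hy, hq⟩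
    simp only [map_zero, sub_zero, sub_self, Finsupp.coe_zero, Pi.zero_apply, add_zero]
    exact ⟨⟨⟨trivial, hw⟩, H.sub_mem hz hy⟩, hy, hq⟩
  · rintro ⟨⟨⟨rfl, hw⟩, hz⟩, hy, hq⟩
    simp only [map_zero, sub_zero, sub_self, Finsupp.coe_zero, Pi.zero_apply,
      add_zero] at hz hy
    refine ⟨⟨rfl, hw⟩, ?_, hy, hq⟩
    have := H.add_mem hz hy
    simpa using this

theorem bF1 (H : Submodule k V) (Hp : Submodule k P) :
    (bX k V Hp).prod (H.prod (⊥ : Submodule k (YY V Q))) =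
      (((bX k V Hp).prod H).prod (⊥ : Submodule k (YY V Q))).map (PsiF k V P Q).toLinearMap := by
  ext ⟨⟨T, R, w⟩, ⟨z, ⟨y, q⟩⟩⟩
  rw [Submodule.mem_map_equiv]
  simp only [PsiF_symm_apply, bX, Submodule.mem_prod, Submodule.mem_top, Submodule.mem_bot,
    true_and, Prod.mk_eq_zero]
  constructor
  · rintro ⟨⟨rfl, hw⟩, hz, rfl, rfl⟩
    simp [hw, hz]
  · rintro ⟨⟨⟨rfl, hw⟩, hz⟩, hy, rfl⟩
    simp only [map_zero, sub_zero, sub_self, Finsupp.coe_zero, Pi.zero_apply,
      add_zero] at hz hy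
    subst hy
    simp at hz
    simp [hw, hz]

theorem bF3 (H : Submodule k V) (Hq : Submodule k Q) :
    (⊤ : Submodule k (XX V P)).prod ((⊤ : Submodule k V).prod (bY H Hq)) =
      (((⊤ : Submodule k (XX V P)).prod (⊤ : Submodule k V)).prod (bY H Hq)).map
        (PsiF k V P Q).toLinearMap := by
  ext ⟨⟨T, R, w⟩, ⟨z, ⟨y, q⟩⟩⟩
  rw [Submodule.mem_map_equiv]
  simp [bY]

/-! type c -/

/-- {T = - R, w in Hp} -/
def cX (k V : Type*) {P : Type*} [Field k] [AddCommGroup V] [Module k V] [AddCommGroup P]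
    [Module k P] (Hp : Submodule k P) : Submodule k (XX V P) where
  carrier := {x | x.1 = - x.2.1 ∧ x.2.2 ∈ Hp}
  add_mem' := by
    rintro ⟨T, R, w⟩ ⟨T', R', w'⟩ ⟨h, h'⟩ ⟨g, g'⟩
    simp only at h h' g g'
    exact ⟨by simp only [Prod.mk_add_mk]; rw [h, g]; abel, Hp.add_mem h' g'⟩
  zero_mem' := by simp
  smul_mem' := by
    rintro c ⟨T, R, w⟩ ⟨h, h'⟩
    simp only at h h'
    exact ⟨by simp only [Prod.smul_mk]; rw [h]; simp, Hp.smul_mem c h'⟩

@[simp] theorem mem_cX (Hp : Submodule k P) (T R : ℕ →₀ V) (w : P) :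
    ((T, R, w) : XX V P) ∈ cX k V Hp ↔ T = - R ∧ w ∈ Hp := Iff.rfl

/-- {y = - e0 v, q in Hq} in V x Y -/
def cVY (k V : Type*) {Q : Type*} [Field k] [AddCommGroup V] [Module k V] [AddCommGroup Q]
    [Module k Q] (Hq : Submodule k Q) : Submodule k (V × YY V Q) where
  carrier := {x | x.2.1 = - e0 k V x.1 ∧ x.2.2 ∈ Hq}
  add_mem' := by
    rintro ⟨z, y, q⟩ ⟨z', y', q'⟩ ⟨h, h'⟩ ⟨g, g'⟩
    simp only at h h' g g'
    exact ⟨by simp only [Prod.mk_add_mk]; rw [h, g, map_add]; abel, Hq.add_mem h' g'⟩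
  zero_mem' := by simp
  smul_mem' := by
    rintro c ⟨z, y, q⟩ ⟨h, h'⟩
    simp only at h h'
    exact ⟨by simp only [Prod.smul_mk]; rw [h, map_smul]; simp, Hq.smul_mem c h'⟩

@[simp] theorem mem_cVY (Hq : Submodule k Q) (z : V) (y : ℕ →₀ V) (q : Q) :
    ((z, (y, q)) : V × YY V Q) ∈ cVY k V Hq ↔ y = - e0 k V z ∧ q ∈ Hq := Iff.rfl

/-- {((-p,p,w), p 1 - p 0)} in X x V -/
def cXV (k V : Type*) {P : Type*} [Field k] [AddCommGroup V] [Module k V] [AddCommGroup P]
    [Module k P] (Hp : Submodule k P) : Submodule k (XX V P × V) where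
  carrier := {x | (x.1.1 = - x.1.2.1 ∧ x.1.2.2 ∈ Hp) ∧ x.2 = x.1.2.1 1 - x.1.2.1 0}
  add_mem' := by
    rintro ⟨⟨T, R, w⟩, z⟩ ⟨⟨T', R', w'⟩, z'⟩ ⟨⟨h, h'⟩, h''⟩ ⟨⟨g, g'⟩, g''⟩
    simp only at h h' g g' h'' g''
    refine ⟨⟨by simp only [Prod.mk_add_mk]; rw [h, g]; abel, Hp.add_mem h' g'⟩, ?_⟩
    simp only [Prod.mk_add_mk, Finsupp.coe_add, Pi.add_apply]
    rw [h'', g'']; abel
  zero_mem' := by simp
  smul_mem' := by
    rintro c ⟨⟨T, R, w⟩, z⟩ ⟨⟨h, h'⟩, h''⟩
    simp only at h h' h''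
    refine ⟨⟨by simp only [Prod.smul_mk]; rw [h]; simp, Hp.smul_mem c h'⟩, ?_⟩
    simp only [Prod.smul_mk, Finsupp.coe_smul, Pi.smul_apply]
    rw [h'', smul_sub]

@[simp] theorem mem_cXV (Hp : Submodule k P) (T R : ℕ →₀ V) (w : P) (z : V) :
    (((T, R, w), z) : XX V P × V) ∈ cXV k V Hp ↔
      (T = - R ∧ w ∈ Hp) ∧ z = R 1 - R 0 := Iff.rfl

/-- {(- e0 v, q)} in Y -/
def cY (k V : Type*) {Q : Type*} [Field k] [AddCommGroup V] [Module k V] [AddCommGroup Q]
    [Module k Q] (Hq : Submodule k Q) : Submodule k (YY V Q) :=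
  (LinearMap.range (e0 k V)).prod Hq

theorem shss (p : ℕ →₀ V) : sh k V (shs k V p) = p - e0 k V (p 0) := by
  ext n
  cases n <;> simp

theorem mem_range_e0 (y : ℕ →₀ V) : y ∈ LinearMap.range (e0 k V) ↔ y = e0 k V (y 0) := by
  constructor
  · rintro ⟨v, rfl⟩
    simp
  · intro h
    exact ⟨_, h.symm⟩

@[simp] theorem shs_e0 (v : V) : shs k V (e0 k V v) = 0 := by
  ext n
  simp

theorem cEF2 (Hp : Submodule k P) (Hq : Submodule k Q) :
    ((cX k V Hp).prod (cVY k V Hq)).map (PsiE k V P Q).toLinearMap =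
      ((cXV k V Hp).prod (cY k V Hq)).map (PsiF k V P Q).toLinearMap := by
  ext ⟨⟨T, R, w⟩, ⟨z, ⟨y, q⟩⟩⟩
  rw [Submodule.mem_map_equiv, Submodule.mem_map_equiv]
  simp only [PsiE_symm_apply, PsiF_symm_apply, cY, Submodule.mem_prod, mem_cX, mem_cVY, mem_cXV,
    mem_range_e0]
  constructor
  · rintro ⟨⟨h1, hw⟩, h2, hq⟩
    have h3 : T = - R := by
      have : T - e0 k V z - (y - sh k V (R - shs k V R)) = T := by rw [h2]; abel
      rw [← h1, this]
    subst h3
    have h4 : y = sh k V (R - shs k V R) - e0 k V z := by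
      rw [sub_eq_iff_eq_add] at h2
      rw [h2]; abel
    subst h4
    have hK : (sh k V (R - shs k V R) - e0 k V z) -
        (sh k V (shs k V (-R) - -R) + e0 k V ((shs k V (-R) - -R) 0)) =
        e0 k V (-(z + R 0 - R 1)) := by
      have h5 : shs k V (-R) - -R = R - shs k V R := by rw [map_neg]; abel
      rw [h5]
      simp only [Finsupp.coe_sub, Pi.sub_apply, shs_apply, zero_add, map_neg, map_sub, map_add]
      abel
    rw [hK]
    simp only [shs_e0, sub_zero, e0_zero, true_and, hw, hq, and_true]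
    rw [show (e0 k V (-(z + R 0 - R 1))) 1 = 0 from e0_succ _ 0]
    abel
  · rintro ⟨⟨⟨h1, hw⟩, h2⟩, h3, hq⟩
    set Y := y - (sh k V (shs k V T - T) + e0 k V ((shs k V T - T) 0)) with hY
    rw [h3] at h1 h2
    simp only [shs_e0, sub_zero, e0_zero] at h1 h2
    rw [show (e0 k V (Y 0)) 1 = 0 from e0_succ _ 0] at h2
    subst h1
    have h5 : shs k V (-R) - -R = R - shs k V R := by rw [map_neg]; abel
    have h6 : y = sh k V (R - shs k V R) - e0 k V z := by
      have h7 : y = Y + (sh k V (shs k V (-R) - -R) + e0 k V ((shs k V (-R) - -R) 0)) := by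
        rw [hY]; abel
      rw [h7, h3, h5]
      have h8 : Y 0 = R 1 - R 0 - z := by rw [← h2]; abel
      rw [h8]
      simp only [Finsupp.coe_sub, Pi.sub_apply, shs_apply, zero_add, map_sub]
      abel
    subst h6
    refine ⟨⟨by abel, hw⟩, by abel, hq⟩

theorem cEF1 (Hq : Submodule k Q) :
    ((⊥ : Submodule k (XX V P)).prod (cVY k V Hq)).map (PsiE k V P Q).toLinearMap =
      ((⊥ : Submodule k (XX V P × V)).prod (cY k V Hq)).map (PsiF k V P Q).toLinearMap := by
  ext ⟨⟨T, R, w⟩, ⟨z, ⟨y, q⟩⟩⟩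
  rw [Submodule.mem_map_equiv, Submodule.mem_map_equiv]
  simp only [PsiE_symm_apply, PsiF_symm_apply, cY, Submodule.mem_prod, mem_cVY,
    mem_range_e0, Submodule.mem_bot, Prod.mk_eq_zero]
  constructor
  · rintro ⟨⟨h1, rfl, rfl⟩, h2, hq⟩
    simp only [map_zero, sub_zero] at h1 h2
    subst h2
    have h3 : T = 0 := by
      rw [← h1]; abel
    subst h3
    simp [hq]
  · rintro ⟨⟨⟨rfl, h1, rfl⟩, h2⟩, h3, hq⟩
    simp only [map_zero, sub_zero, Finsupp.coe_zero, Pi.zero_apply, add_zero] at h1 h2 h3 ⊢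
    rw [h3] at h1 h2
    simp only [shs_e0, sub_zero, e0_zero] at h1 h2
    rw [show (e0 k V (y 0)) 1 = 0 from e0_succ _ 0] at h2
    subst h1
    have h4 : y 0 = - z := by
      have : z + y 0 = 0 := by rw [← h2]; abel
      exact (neg_eq_of_add_eq_zero_right this).symm
    rw [h3, h4]
    simp [hq]

theorem cEF3 (Hp : Submodule k P) :
    ((cX k V Hp).prod (⊤ : Submodule k (V × YY V Q))).map (PsiE k V P Q).toLinearMap =
      ((cXV k V Hp).prod (⊤ : Submodule k (YY V Q))).map (PsiF k V P Q).toLinearMap := by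
  ext ⟨⟨T, R, w⟩, ⟨z, ⟨y, q⟩⟩⟩
  rw [Submodule.mem_map_equiv, Submodule.mem_map_equiv]
  simp only [PsiE_symm_apply, PsiF_symm_apply, Submodule.mem_prod, mem_cX, mem_cXV,
    Submodule.mem_top, and_true]
  have hL : (T - e0 k V z - (y - sh k V (R - shs k V R)) = -R) ↔
      (T 0 + R 0 = z + y 0 ∧ ∀ n, T (n + 1) = y (n + 1) - R n) := by
    constructor
    · intro h
      constructor
      · have := DFunLike.congr_fun h 0
        simp only [Finsupp.coe_sub, Pi.sub_apply, e0_zero, sh_zero, sub_zero, Finsupp.coe_neg,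
          Pi.neg_apply] at this
        have h2 : T 0 = z + y 0 - R 0 := by
          rw [sub_eq_add_neg (z + y 0), ← this]; abel
        rw [h2]; abel
      · intro n
        have := DFunLike.congr_fun h (n + 1)
        simp only [Finsupp.coe_sub, Pi.sub_apply, e0_succ, sh_succ, sub_zero, Finsupp.coe_neg,
          Pi.neg_apply, shs_apply] at this
        have h2 : T (n + 1) = - R (n + 1) + (y (n + 1) - (R n - R (n + 1))) := by
          rw [← this]; abel
        rw [h2]; abel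
    · rintro ⟨h0, h1⟩
      ext n
      cases n with
      | zero =>
        simp only [Finsupp.coe_sub, Pi.sub_apply, e0_zero, sh_zero, sub_zero, Finsupp.coe_neg,
          Pi.neg_apply]
        have h2 : T 0 = z + y 0 - R 0 := by rw [← h0]; abel
        rw [h2]; abel
      | succ n =>
        simp only [Finsupp.coe_sub, Pi.sub_apply, e0_succ, sh_succ, sub_zero, Finsupp.coe_neg,
          Pi.neg_apply, shs_apply]
        rw [h1 n]; abel
  have hR : ((T = -(R - shs k V (y - (sh k V (shs k V T - T) + e0 k V ((shs k V T - T) 0))))) ∧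
      (z - ((y - (sh k V (shs k V T - T) + e0 k V ((shs k V T - T) 0))) 1 -
          (y - (sh k V (shs k V T - T) + e0 k V ((shs k V T - T) 0))) 0) =
        (R - shs k V (y - (sh k V (shs k V T - T) + e0 k V ((shs k V T - T) 0)))) 1 -
        (R - shs k V (y - (sh k V (shs k V T - T) + e0 k V ((shs k V T - T) 0)))) 0)) ↔
      (T 0 + R 0 = z + y 0 ∧ ∀ n, T (n + 1) = y (n + 1) - R n) := by
    have key : (T = -(R - shs k V (y - (sh k V (shs k V T - T) +
        e0 k V ((shs k V T - T) 0))))) ↔ ∀ n, T (n + 1) = y (n + 1) - R n := by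
      constructor
      · intro h n
        have := DFunLike.congr_fun h n
        simp only [Finsupp.coe_sub, Pi.sub_apply, e0_succ, sh_succ, Finsupp.coe_neg,
          Pi.neg_apply, shs_apply, Finsupp.coe_add, Pi.add_apply, add_zero] at this
        have h2 : T (n + 1) = y (n + 1) - R n + (T n - T n) := by
          have h3 : T n + T (n + 1) = y (n + 1) - R n + T n := by
            nth_rewrite 1 [this]; abel
          have h4 : T (n + 1) = (T n + T (n + 1)) - T n := by abel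
          rw [h4, h3]; abel
        rw [h2]; abel
      · intro h
        ext n
        simp only [Finsupp.coe_sub, Pi.sub_apply, e0_succ, sh_succ, Finsupp.coe_neg,
          Pi.neg_apply, shs_apply, Finsupp.coe_add, Pi.add_apply, add_zero]
        rw [h n]; abel
    constructor
    · rintro ⟨h1, h2⟩
      have h3 := key.1 h1
      refine ⟨?_, h3⟩
      have e1 : (y - (sh k V (shs k V T - T) + e0 k V ((shs k V T - T) 0))) 1 =
          y 1 - (T 1 - T 0) := by
        have := e0_succ (k := k) ((shs k V T - T) 0) 0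
        have h6 := sh_succ (k := k) (shs k V T - T) 0
        simp only [zero_add] at this h6
        rw [Finsupp.sub_apply, Finsupp.add_apply, this, h6, Finsupp.sub_apply, shs_apply,
          add_zero, zero_add]
      have e2 : (y - (sh k V (shs k V T - T) + e0 k V ((shs k V T - T) 0))) 0 =
          y 0 - (T 1 - T 0) := by
        simp only [Finsupp.coe_sub, Pi.sub_apply, Finsupp.coe_add, Pi.add_apply, sh_zero, e0_zero,
          shs_apply, zero_add]
      have e3 : (R - shs k V (y - (sh k V (shs k V T - T) +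
          e0 k V ((shs k V T - T) 0)))) = - T := (neg_eq_iff_eq_neg.mpr h1).symm
      rw [e1, e2, e3] at h2
      simp only [Finsupp.coe_neg, Pi.neg_apply] at h2
      have h4 := h3 0
      simp only [zero_add] at h4
      have h5 : z = (- T 1 - - T 0) + (y 1 - (T 1 - T 0) - (y 0 - (T 1 - T 0))) := by
        rw [← h2]; abel
      rw [h5, h4]; abel
    · rintro ⟨h1, h2⟩
      have h3 := key.2 h2
      refine ⟨h3, ?_⟩
      have e1 : (y - (sh k V (shs k V T - T) + e0 k V ((shs k V T - T) 0))) 1 =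
          y 1 - (T 1 - T 0) := by
        have := e0_succ (k := k) ((shs k V T - T) 0) 0
        have h6 := sh_succ (k := k) (shs k V T - T) 0
        simp only [zero_add] at this h6
        rw [Finsupp.sub_apply, Finsupp.add_apply, this, h6, Finsupp.sub_apply, shs_apply,
          add_zero, zero_add]
      have e2 : (y - (sh k V (shs k V T - T) + e0 k V ((shs k V T - T) 0))) 0 =
          y 0 - (T 1 - T 0) := by
        simp only [Finsupp.coe_sub, Pi.sub_apply, Finsupp.coe_add, Pi.add_apply, sh_zero, e0_zero,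
          shs_apply, zero_add]
      have e3 : (R - shs k V (y - (sh k V (shs k V T - T) +
          e0 k V ((shs k V T - T) 0)))) = - T := (neg_eq_iff_eq_neg.mpr h3).symm
      rw [e1, e2, e3]
      simp only [Finsupp.coe_neg, Pi.neg_apply]
      have h4 := h2 0
      simp only [zero_add] at h4
      have h5 : z = T 0 + R 0 - y 0 := by rw [h1]; abel
      rw [h5, h4]; abel
  constructor
  · rintro ⟨h, hw⟩
    have := hR.2 (hL.1 h)
    exact ⟨⟨this.1, hw⟩, this.2⟩
  · rintro ⟨⟨h1, hw⟩, h2⟩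
    exact ⟨hL.2 (hR.1 ⟨h1, h2⟩), hw⟩

/-! type 0/1: products of copies -/

/-- all coordinates in H -/
def fsH {k V : Type*} [Field k] [AddCommGroup V] [Module k V] (H : Submodule k V) :
    Submodule k (ℕ →₀ V) where
  carrier := {f | ∀ n, f n ∈ H}
  add_mem' := fun h g n => H.add_mem (h n) (g n)
  zero_mem' := fun _ => H.zero_mem
  smul_mem' := fun c _ h n => H.smul_mem c (h n)

@[simp] theorem mem_fsH (H : Submodule k V) (f : ℕ →₀ V) : f ∈ fsH H ↔ ∀ n, f n ∈ H := Iff.rfl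

theorem sh_mem {H : Submodule k V} {f : ℕ →₀ V} (h : f ∈ fsH H) : sh k V f ∈ fsH H := by
  intro n
  cases n with
  | zero => simp
  | succ n => simpa using h n

theorem shs_mem {H : Submodule k V} {f : ℕ →₀ V} (h : f ∈ fsH H) : shs k V f ∈ fsH H := by
  intro n
  simpa using h (n + 1)

theorem e0_mem {H : Submodule k V} {v : V} (h : v ∈ H) : e0 k V v ∈ fsH H := by
  intro n
  cases n with
  | zero => simpa using h
  | succ n => simp

def zX {k V P : Type*} [Field k] [AddCommGroup V] [Module k V] [AddCommGroup P]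
    [Module k P] (H : Submodule k V) (Hp : Submodule k P) : Submodule k (XX V P) :=
  (fsH H).prod ((fsH H).prod Hp)

def zY {k V Q : Type*} [Field k] [AddCommGroup V] [Module k V] [AddCommGroup Q]
    [Module k Q] (H : Submodule k V) (Hq : Submodule k Q) : Submodule k (YY V Q) :=
  (fsH H).prod Hq

theorem zE (H : Submodule k V) (Hp : Submodule k P) (Hq : Submodule k Q) :
    (zX H Hp).prod (H.prod (zY H Hq)) =
      ((zX H Hp).prod (H.prod (zY H Hq))).map (PsiE k V P Q).toLinearMap := by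
  ext ⟨⟨T, R, w⟩, ⟨z, ⟨y, q⟩⟩⟩
  rw [Submodule.mem_map_equiv]
  simp only [PsiE_symm_apply, zX, zY, Submodule.mem_prod]
  constructor
  · rintro ⟨⟨hT, hR, hw⟩, hz, hy, hq⟩
    have h1 : y - sh k V (R - shs k V R) ∈ fsH H :=
      (fsH H).sub_mem hy (sh_mem ((fsH H).sub_mem hR (shs_mem hR)))
    exact ⟨⟨(fsH H).sub_mem ((fsH H).sub_mem hT (e0_mem hz)) h1, hR, hw⟩, hz, h1, hq⟩
  · rintro ⟨⟨hT, hR, hw⟩, hz, hy, hq⟩
    have h1 : y ∈ fsH H := by
      have := (fsH H).add_mem hy (sh_mem ((fsH H).sub_mem hR (shs_mem hR)))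
      simpa using this
    have h2 : T ∈ fsH H := by
      have := (fsH H).add_mem ((fsH H).add_mem hT hy) (e0_mem hz)
      have h3 : T - e0 k V z - (y - sh k V (R - shs k V R)) +
          (y - sh k V (R - shs k V R)) + e0 k V z = T := by abel
      rwa [h3] at this
    exact ⟨⟨h2, hR, hw⟩, hz, h1, hq⟩

theorem zF (H : Submodule k V) (Hp : Submodule k P) (Hq : Submodule k Q) :
    (zX H Hp).prod (H.prod (zY H Hq)) =
      (((zX H Hp).prod H).prod (zY H Hq)).map (PsiF k V P Q).toLinearMap := by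
  ext ⟨⟨T, R, w⟩, ⟨z, ⟨y, q⟩⟩⟩
  rw [Submodule.mem_map_equiv]
  simp only [PsiF_symm_apply, zX, zY, Submodule.mem_prod]
  constructor
  · rintro ⟨⟨hT, hR, hw⟩, hz, hy, hq⟩
    have hd : shs k V T - T ∈ fsH H := (fsH H).sub_mem (shs_mem hT) hT
    have h1 : y - (sh k V (shs k V T - T) + e0 k V ((shs k V T - T) 0)) ∈ fsH H :=
      (fsH H).sub_mem hy ((fsH H).add_mem (sh_mem hd) (e0_mem (hd 0)))
    exact ⟨⟨⟨hT, (fsH H).sub_mem hR (shs_mem h1), hw⟩,
      H.sub_mem hz (H.sub_mem (h1 1) (h1 0))⟩, h1, hq⟩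
  · rintro ⟨⟨⟨hT, hR, hw⟩, hz⟩, hy, hq⟩
    have hd : shs k V T - T ∈ fsH H := (fsH H).sub_mem (shs_mem hT) hT
    have h1 : y ∈ fsH H := by
      have := (fsH H).add_mem hy ((fsH H).add_mem (sh_mem hd) (e0_mem (hd 0)))
      simpa using this
    have h2 : R ∈ fsH H := by
      have := (fsH H).add_mem hR (shs_mem hy)
      simpa using this
    have h3 : z ∈ H := by
      have := H.add_mem hz (H.sub_mem (hy 1) (hy 0))
      simpa using this
    exact ⟨⟨hT, h2, hw⟩, h3, h1, hq⟩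

end

end Pool.Agent.PV44
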